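import Pool.Agent.Run7.h359.Evp

/-!
# Bloch–Kato ranks of Hilbert modular forms of all even `k`: at most the orders of vanishing, which are
# unbounded

Let `E_M` be the quadratic twist by `M` of `X_0(49)`, `ψ_M` its Hecke character over
`K = ℚ(√-7) = ℚ(w)`, `w² = w - 2`, and let `F = ℚ(√d_1, …, √d_n)`, a totally real field. For every
even `k > 0` the newform of `ψ_M^{2k-1}` has a base change to `F`, a Hilbert modular newform `g` of
parallel weight `2k` with trivial central character and rational eigenvalues.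

* The Euler factor of `L(g, s - k)` at the place `v` of `F` is
  `1 / ((1 - α^{2k-1} q^{-s}) (1 - β^{2k-1} q^{-s}))`, where `(1 - α T) (1 - β T)` is the local
  polynomial of `E_M` at `v` (of Mathlib) and `q` is the norm of `v`. The central point `0` of `L(g, s)`
  corresponds to `s = k`.
* The Galois representation `V_g` at the prime `2` (normalized such that the arithmetic Frobenius of `v`
  has characteristic polynomial `X² - t_v X + q`) is the restriction to `Gal(ℚ̄/F)` of the
  representation of `Gal(ℚ̄/ℚ)` induced from the character `κ^k κ'^(1-k)` of `Gal(ℚ̄/K)`; here `κ`, `κ'`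
  are the characters by which `Gal(ℚ̄/K)` acts on the `2`-adic Tate module of `E_M`.

The class consists of the squarefree `D = 1 mod 8` with all prime factors `1 mod 4`. A pair of `M` and
`d_1, …, d_n` is good if all the `M ∏_{i ∈ T} d_i` are, up to squares, numbers `D` of the class such that
`E_D(ℚ)` is finite and `Ш(E_D/ℚ)` has no element of order two, a condition on the weight `2` and the field
`ℚ` only.

Theorem: if the pair is good and `d_1, …, d_n` are independent modulo squares, so that `[F : ℚ] = 2^n`,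
then for the forms `g` of **all** parallel weights `2k`, `k` even, and `λ = 2`

  `dim H¹_f(F, V_g) ≤ 2^n ≤ ord_{s=0} L(g, s) < ∞`,  `H⁰(F, V_g) = 0`.

So one of the two inequalities of the rank formula holds, and the orders of vanishing are not bounded. For
all independent `d_1, …, d_n` of the class, that is, all the fields `F` of the class (in particular
`F = ℚ`), this is so for at least `a X / √(log X)` of the twists `M = D ≤ X` of the class, `a > 0`, the order
of magnitude of the class (Landau), and every good pair remains good for as many `d_{n+1} = D ≤ X`, that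
is, quadratic extensions of `F`. For odd `k` both sides of the formula are zero (`OddWeightsRankFormula`).

New: the zeros of the `L`-functions. They are forced by the functional equations, which are proved
with their signs (`Run7/h359/Fes`): the sign in weight `2k` is `(-1)^(k-1)` times the one in weight
`2`, and the latter is `1` as the value in weight `2` is not zero. The Selmer groups were bounded for a
subclass in the starting file `CMFormsEvenWeights`; this is extended to the class.
-/

set_option autoImplicit false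

namespace Pool.Agent.Results.MP_6e2fc3_nt.EvenWeightsRankInequality

open Pool.Agent.Results.MP_787500_nt.AllWeightsMultiquadraticX49
open Pool.Agent.Results.MP_6e2fc3_nt.CMFormsAllWeights
open NumberField IsDedekindDomain WeierstrassCurve Filter Topology
open scoped Classical

/-! ### The `L`-functions -/

/-- `α ^ n + β ^ n`, where `α + β = a` and `α β = e`. -/
def powerSum (a e : ℤ) : ℕ → ℤ
  | 0 => 2
  | 1 => a
  | n + 2 => a * powerSum a e (n + 1) - e * powerSum a e n

/-- The local polynomial `1 - a T + e T² = (1 - α T) (1 - β T)` of the curve `W` over the number field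
`F` at the place `v`: at the places of good reduction `e` is the norm `q` of `v` and
`a = q + 1 - #W(k_v)`, and the polynomial is `1` at the places of additive reduction. -/
noncomputable def localPoly {F : Type} [Field F] [NumberField F] (W : WeierstrassCurve F)
    (v : HeightOneSpectrum (𝓞 F)) : Polynomial ℤ :=
  (W.baseChange (v.adicCompletion F)).localPolynomial (v.adicCompletionIntegers F)

/-- The Euler factor `1 / ((1 - α ^ n q^{-s}) (1 - β ^ n q^{-s}))`, where `(1 - α T) (1 - β T)` is the
local polynomial of the curve `W` at the place `v` of norm `q`. -/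
noncomputable def factor {F : Type} [Field F] [NumberField F] (W : WeierstrassCurve F) (n : ℕ) (s : ℂ)
    (v : HeightOneSpectrum (𝓞 F)) : ℂ :=
  (1 - (powerSum (-(localPoly W v).coeff 1) ((localPoly W v).coeff 2) n : ℂ) *
      (Ideal.absNorm v.asIdeal : ℂ) ^ (-s) +
    ((localPoly W v).coeff 2 : ℂ) ^ n * ((Ideal.absNorm v.asIdeal : ℂ) ^ (-s)) ^ 2)⁻¹

/-- `Λ` is the entire continuation of the `L`-function over `F` of the newform of weight `2k` that belongs
to the curve `W` with complex multiplication: the Euler product over the places of `F` with the factors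
`factor W (2k-1) s` converges to `Λ(s)` for `Re s > k + 1/2`. The centre is `s = k`. -/
def IsLFunction {F : Type} [Field F] [NumberField F] (W : WeierstrassCurve F) (k : ℕ)
    (Λ : ℂ → ℂ) : Prop :=
  Differentiable ℂ Λ ∧
    ∀ s : ℂ, (k : ℝ) + 1 / 2 < s.re → HasProd (factor W (2 * k - 1) s) (Λ s)

/-- The field `F = ℚ(s_1, …, s_n)`. -/
noncomputable abbrev Fld {n : ℕ} (s : Fin n → QBar) : IntermediateField ℚ QBar :=
  IntermediateField.adjoin ℚ (Set.range s)

instance numField {n : ℕ} (s : Fin n → QBar) : NumberField (Fld s) := Run7.h359.FE.nf_adj s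

/-- The curve `E_M` over `F = ℚ(s_1, …, s_n)`. -/
noncomputable def EF {n : ℕ} (s : Fin n → QBar) (M : ℕ) : WeierstrassCurve (Fld s) :=
  (E M).map (algebraMap ℚ (Fld s))

/-! ### The class -/

/-- The class: `D = 1 mod 8` is squarefree, and all its prime factors are `1 mod 4`. -/
def Wide (D : ℕ) : Prop := Squarefree D ∧ D % 8 = 1 ∧ ∀ p : ℕ, p.Prime → p ∣ D → p % 4 = 1

/-- The good pairs: all the numbers `M ∏_{i ∈ T} d_i` are, up to nonzero squares, numbers `D` of the
class such that `E_D(ℚ)` is finite and `Ш(E_D/ℚ)` has no element of order two. -/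
def GoodPair (M : ℕ) {n : ℕ} (d : Fin n → ℕ) : Prop := ∀ T : Finset (Fin n), ∃ D k : ℕ,
  k ≠ 0 ∧ Wide D ∧ RankZeroShaTwo D ∧ M * ∏ i ∈ T, d i = D * k ^ 2

/-- For large `X` at least `a X / √(log X)` of the `D ≤ X` of the class have the property `P`,
with a constant `a > 0`. -/
def OfOrder (P : ℕ → Prop) : Prop := ∃ (a : ℝ) (X₀ : ℕ), 0 < a ∧ ∀ X : ℕ, X₀ ≤ X →
  a * X / Real.sqrt (Real.log X) ≤ (((Finset.Icc 1 X).filter fun D => Wide D ∧ P D).card : ℝ)

/-! ### The Galois cohomology -/

/-- `H⁰(F, V) = 0` for `F = ℚ(s_1, …, s_n)` and the representation `V` induced from `χ`. -/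
def NoInvariantsF {w : QBar} {n : ℕ} (s : Fin n → QBar) (χ : Chr w) (c₀ : GQ) : Prop :=
  ∀ y : ℚ_[2] × ℚ_[2], (∀ σ ∈ GF s, ind χ c₀ σ y = y) → y = 0

/-- The vector space `A` has dimension at most `N` modulo `B`: any `N + 1` of its elements have a
nontrivial linear combination in `B`. -/
def DimLE {V : Type} [AddCommGroup V] [Module ℚ_[2] V] (A B : Set V) (N : ℕ) : Prop :=
  ∀ b : Fin (N + 1) → V, (∀ i, b i ∈ A) → ∃ a : Fin (N + 1) → ℚ_[2], a ≠ 0 ∧ ∑ i, a i • b i ∈ B

/-- `H¹_f(F, V)` has dimension at most `N`, for `F = ℚ(s_1, …, s_n)` and the representation `V` induced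
from `χ`. -/
def DimF {w : QBar} {n : ℕ} (s : Fin n → QBar) (χ : Chr w) (c₀ : GQ) (N : ℕ) : Prop :=
  DimLE {b | IsCocycleF s χ c₀ b ∧ IsSelmerF s χ c₀ b} {b | TrivialOnF s χ c₀ Set.univ b} N

/-! ### The inequalities -/

/-- The inequalities over `F = ℚ(s_1, …, s_n)`: the `L`-function `Λ` over `F` is entire, its order of
vanishing at the centre `k` is finite and at least `2 ^ n`, and for the representation `V` induced
from the character `κ^k κ'^(1-k)` the group `H⁰(F, V)` is zero and `H¹_f(F, V)` has dimension at most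
`2 ^ n`. -/
def BoundF (M : ℕ) {w : QBar} {n : ℕ} (s : Fin n → QBar) (κ κ' : Chr w) (k : ℕ) (Λ : ℂ → ℂ) : Prop :=
  (IsLFunction (EF s M) k Λ ∧ analyticOrderAt Λ k ≠ ⊤ ∧ ((2 ^ n : ℕ) : ℕ∞) ≤ analyticOrderAt Λ k) ∧
  ∀ c₀ : GQ, c₀ w = 1 - w → NoInvariantsF s (chi κ κ' k) c₀ ∧ DimF s (chi κ κ' k) c₀ (2 ^ n)

/-- For **all** even `k > 0` the inequalities hold for `λ = 2` and the form of parallel weight `2k` over
`F = ℚ(√d_1, …, √d_n)`: the curve `E_M` is over `K = ℚ(w)` isomorphic to the elliptic curve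
`ED w (tw M)`, the absolute Galois group of `K` acts on its `2`-adic Tate module by `κ`, `κ'`, and the
inequalities hold for the `L`-functions and the representations made from these. -/
def AllBounds (M : ℕ) {n : ℕ} (d : Fin n → ℕ) : Prop := ∀ w : QBar, w ^ 2 = w - 2 →
  Iso (EK w M) (ED w (tw M)) ∧ (ED w (tw M)).IsElliptic ∧
  ∃ κ κ' : Chr w, TateModule (tw M) κ κ' ∧
    ∀ s : Fin n → QBar, (∀ i, s i ^ 2 = (d i : QBar)) → ∀ k : ℕ, 0 < k → Even k →
      ∃ Λ : ℂ → ℂ, BoundF M s κ κ' k Λ

theorem powerSum_eq (a e : ℤ) : ∀ n : ℕ, powerSum a e n =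
    Pool.Agent.Results.MP_ec4e4b_nt.OddWeightsMultiquadratic.powerSum a e n
  | 0 => rfl
  | 1 => rfl
  | n + 2 => by
    rw [powerSum, Pool.Agent.Results.MP_ec4e4b_nt.OddWeightsMultiquadratic.powerSum,
      powerSum_eq a e (n + 1), powerSum_eq a e n]

theorem all_bounds {M n : ℕ} {d : Fin n → ℕ} (hG : GoodPair M d) (hI : Ind d) : AllBounds M d := by
  intro w hw
  obtain ⟨hM0, hd0⟩ := Run7.h359.WD.good_ne' hG
  obtain ⟨κ, κ', ht, r, I, kd⟩ := Pool.Agent.Kdt384.exists_tate hw hM0
  refine ⟨tw_iso hw M, elliptic (tw_ne hM0) hw, κ, κ', ht, fun s hs k hk0 hk => ?_⟩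
  obtain ⟨h1, -, -⟩ := Run7.h359.EV.selmer hG hw kd hs (k := (k : ℤ)) (by exact_mod_cast hk)
  have hinv : ∀ j : ℤ, ∃ σ ∈ GalL w s, qv (chi κ κ' j) σ ≠ 1 := fun j =>
    Run7.h359.IV.chi_ne hw hM0 hd0 kd hs j
  obtain ⟨Λ, g1, g2, g3⟩ := Run7.h359.EV.lfun hG hI hs hk hk0
  refine ⟨Λ, ⟨⟨g1.1, fun z hz => ?_⟩, g2, g3⟩, fun c₀ hc₀ =>
    ⟨Run7.h359.IV.noInvF_of hs hc₀ (hinv k), h1 c₀ hc₀⟩⟩
  have e : factor (EF s M) (2 * k - 1) z =
      Pool.Agent.Results.MP_ec4e4b_nt.OddWeightsMultiquadratic.factor (EF s M) (2 * k - 1) z := by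
    funext v
    unfold factor
    rw [powerSum_eq]
    rfl
  rw [e]
  exact g1.2 z hz

theorem ofOrder_of {P : ℕ → Prop} {a : ℝ} {X₀ : ℕ} (ha : 0 < a) {G : ℕ → Finset ℕ}
    (h : ∀ X : ℕ, X₀ ≤ X → a * X / Real.sqrt (Real.log X) ≤ ((G X).card : ℝ))
    (hG : ∀ X D, D ∈ G X → D ∈ Finset.Icc 1 X ∧ Wide D ∧ P D) : OfOrder P := by
  refine ⟨a, X₀, ha, fun X hX => (h X hX).trans (Nat.cast_le.2 (Finset.card_le_card fun D hD => ?_))⟩
  rw [Finset.mem_filter]
  exact hG X D hD

/-- **The Bloch–Kato ranks of the Hilbert modular forms of all the even `k` are at most the orders of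
vanishing.** -/
theorem result :
    (∀ (n M : ℕ) (d : Fin n → ℕ), Ind d → GoodPair M d → AllBounds M d) ∧
    (∀ (n M : ℕ) (d : Fin n → ℕ), Wide M → (∀ i, Wide (d i)) → Ind d →
      OfOrder fun D => GoodPair (M * D) d ∧ AllBounds (M * D) d) ∧
    (∀ (n M : ℕ) (d : Fin n → ℕ), Wide M → (∀ i, Wide (d i)) → Ind d → GoodPair M d →
      OfOrder fun D => Ind (add d D) ∧ GoodPair M (add d D) ∧ AllBounds M (add d D)) := by
  refine ⟨fun n M d hI h => all_bounds h hI, fun n M d hM hd hI => ?_, fun n M d hM hd hI hG => ?_⟩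
  · obtain ⟨a, X₀, ha, h⟩ := Run7.h359.CW.cnt_good hM hd
    refine ofOrder_of ha h fun X D hD => ?_
    rw [Finset.mem_filter] at hD
    exact ⟨hD.1, hD.2.1, hD.2.2, all_bounds hD.2.2 hI⟩
  · obtain ⟨a, X₀, ha, h⟩ := Run7.h359.CW.cnt_add hM hd hI hG
    refine ofOrder_of ha h fun X D hD => ?_
    rw [Finset.mem_filter] at hD
    exact ⟨hD.1, hD.2.1, hD.2.2.1, hD.2.2.2, all_bounds hD.2.2.2 hD.2.2.1⟩

end Pool.Agent.Results.MP_6e2fc3_nt.EvenWeightsRankInequality
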