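import Pool.Agent.Results.MP_6e2fc3_nt.OddWeightsRankFormula
import Pool.Agent.Run7.h359.Jnt

/-!
# The joint law of the Bloch–Kato rank formula for the twists of finitely many families of Hilbert
# modular forms, for all odd weights

Let `E_M` be the quadratic twist by `M` of `X_0(49)`, `ψ_M` its Hecke character over `K = ℚ(√-7)`, and let
`F = ℚ(√d_1, …, √d_n)`, a totally real field. For every odd `k > 0` the newform of `ψ_M^{2k-1}` has a base
change to `F`, a Hilbert modular newform `g_{k,M}` of parallel weight `2k` with trivial central character
and rational eigenvalues; see `OddWeightsRankFormula` for the Euler factors and the Galois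
representation at `2`.

The class consists of the squarefree `D = 1 mod 8` with all prime factors `1 mod 4`; it has the order of
magnitude `X / √(log X)` (Landau). A pair of `N` and `d_1, …, d_n` is good if all the `N ∏_{i ∈ S} d_i` are,
up to squares, numbers `D` of the class such that `E_D(ℚ)` is finite and `Ш(E_D/ℚ)` has no element of order
two, a condition on the weight `2` and the field `ℚ` only.

Theorem (the joint law). Let `d_1, …, d_n` be members of the class, independent modulo squares, and let
`T` be a finite set of members of the class that are pairwise different modulo the `d_i` and squares. For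
`N` in the class the `|T|` events `(M N, d)` is good, `M ∈ T`, are independent, each of probability
`c ^ 2 ^ n`, `c = ∏_{i ≥ 0} (1 - 2^{-2i-1}) = 0.4194…`: for every `V ⊆ T` the set of the `M ∈ T` with
`(M N, d)` good is equal to `V` for exactly the proportion `(c^(2^n))^|V| (1 - c^(2^n))^(|T| - |V|)` of the
`N` of the class, and the same holds for the norms `N = a² + b² = 1 mod 8` of the pairs `(a, b)` of
integers: this is the case for exactly a quarter of that proportion of **all** the pairs of integers,
ordered by `a² + b²`. For all `M ∈ V` and **all** odd `k > 0` the rank formula
`dim H¹_f(F, V_g) = ord L(g, s)` holds for `g = g_{k,MN}` and `λ = 2`, both sides being zero. In particular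
it holds for all `M ∈ T` and all odd `k` at the same time for a positive proportion, at least
`c^(2^n |T|) / 4`, of all the pairs of integers.

Proof. The implication from the good pairs is `OddWeightsRankFormula` (helper359). The joint law
without the condition modulo `8` is in the starting files (`R413`) for the numbers, and by helper428
(`Run7/h428`, with the count of the pairs by helper238) for the pairs of integers. Here both are proved for
the sets of primes with a given label in a finite abelian group (`Run7/h359/La1` to `La14`), and the
shift of the even coordinate by two shows that a quarter of all the pairs have norm `1 mod 8`.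
-/

set_option autoImplicit false

namespace Pool.Agent.Results.MP_6e2fc3_nt.JointLawAllOddWeights

open Pool.Agent.Results.MP_6e2fc3_nt.OddWeightsRankFormula (AllOddWeights all_formulas)
open Pool.Agent.Results.MP_787500_nt.AllWeightsMultiquadraticX49 (Ind c)
open Run7.h359.Jnt

/-- **The joint law of the twists.** -/
theorem result :
    (∀ (n : ℕ) (d : Fin n → ℕ) (T V : Finset ℕ), (∀ i, Wide (d i)) → Ind d → (∀ M ∈ T, Wide M) →
      Separated d T → V ⊆ T →
      Proportion (prob n T V) (fun N => IsPattern d T V N ∧ ∀ M ∈ V, AllOddWeights (M * N) d) ∧
      PairProportion (prob n T V / 4)
        (fun N => N % 8 = 1 ∧ IsPattern d T V N ∧ ∀ M ∈ V, AllOddWeights (M * N) d)) ∧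
    0.4194 < c ∧ c < 0.4195 := by
  obtain ⟨-, -, -, h4, h5⟩ := Pool.Agent.Results.MP_787500_nt.AllWeightsMultiquadraticX49.result
  exact ⟨fun n d T V hd hI hT hsep hV =>
    joint hd hI hT hsep hV (fun N => AllOddWeights N d) fun N hN => all_formulas hN, h4, h5⟩

end Pool.Agent.Results.MP_6e2fc3_nt.JointLawAllOddWeights
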