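import Pool.Agent.Results.MP_787500_nt.AllWeightsMultiquadraticX49
import Pool.Agent.Results.MP_6e2fc3_nt.CMFormsAllWeights
import Pool.Agent.Results.MP_d4aa36_nt.InfiniteTowersCMForms
import Pool.Agent.Run7.h359.Nf
import Pool.Agent.Run7.h359.Lfw
import Pool.Agent.Run7.h359.Cw

/-!
# The Bloch–Kato rank formula for Hilbert modular forms with complex multiplication of all weights `2k`,
# `k` odd, over infinitely many totally real fields

Let `E_M` be the quadratic twist by `M` of `X_0(49)`, `ψ_M` its Hecke character over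
`K = ℚ(√-7) = ℚ(w)`, `w² = w - 2`, and let `F = ℚ(√d_1, …, √d_n)`, a totally real field. For every
odd `k > 0` the newform of `ψ_M^{2k-1}` has a base change to `F`, a Hilbert modular newform `g` of
parallel weight `2k` with trivial central character and rational eigenvalues.

* The Euler factor of `L(g, s - k)` at the place `v` of `F` is
  `1 / ((1 - α^{2k-1} q^{-s}) (1 - β^{2k-1} q^{-s}))`, where `(1 - α T) (1 - β T)` is the local
  polynomial of `E_M` at `v` (of Mathlib) and `q` is the norm of `v`: the eigenvalue of `g` is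
  `t_v = (α^{2k-1} + β^{2k-1}) / q^{k-1}`. The central point `0` of `L(g, s)` corresponds to `s = k`.
* The Galois representation `V_g` at the prime `2` (normalized such that the arithmetic Frobenius of `v`
  has characteristic polynomial `X² - t_v X + q`) is the restriction to `Gal(ℚ̄/F)` of the
  representation of `Gal(ℚ̄/ℚ)` induced from the character `κ^k κ'^(1-k)` of `Gal(ℚ̄/K)`; here `κ`, `κ'`
  are the characters by which `Gal(ℚ̄/K)` acts on the `2`-adic Tate module of `E_M`.

The class consists of the squarefree `D = 1 mod 8` with all prime factors `1 mod 4`. A pair of `M` and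
`d_1, …, d_n` is good if all the `M ∏_{i ∈ T} d_i` are, up to squares, numbers `D` of the class such that
`E_D(ℚ)` is finite and `Ш(E_D/ℚ)` has no element of order two, a condition on the weight `2` and the field
`ℚ` only.

Theorem: if the pair is good, then the formula `dim H¹_f(F, V_g) = ord L(g, s)` holds, both sides being
zero, for the forms `g` of **all** parallel weights `2k`, `k` odd, and `λ = 2`: the `L`-function is entire
and does not vanish at the centre, and the Bloch–Kato Selmer group is zero. For all `d_1, …, d_n` of the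
class, that is, all the fields `F` of the class, this is so for at least `a X / √(log X)` of the twists
`M = D ≤ X` of the class, `a > 0`, which is the order of magnitude of the class (Landau), and every good
pair remains good for as many `d_{n+1} = D ≤ X`, that is, quadratic extensions of `F`. In the subclass of
the numbers with prime factors `1 mod 8` and split in `K` or `5 mod 8` and inert in `K` the lower
proportion of the good twists is at least `c ^ 2 ^ n`, `c = 0.4194…`.

For the subclass the Selmer groups are from the starting file `MP_6e2fc3_nt/CMFormsAllWeights`; they are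
extended to the class here (`Run7/h359/Wsel`, `Wal`). New here are also the central values for all odd
`k > 1`, and the `L`-function over `F`. The proof is in `Run7/h359`. The value `L(ψ_D^{2k-1}, k)` is a
weighted sum over the points of `E` of odd order dividing `D √-7` of the coefficients of the expansion of
the theta function of Kronecker. For odd `k` these are congruent modulo `8`, at a prime above `2`, to a
multiple of those for `k = 1`. Induction over the divisors of `D`, with the known `2`-adic valuations for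
`k = 1` as an input, determines the `2`-adic valuation of the algebraic part of `L(ψ_D^{2k-1}, k)`; in
particular the value is not zero. The decomposition of the primes in `F` is from `Run7/h401/MQ`
(helper401).
-/

set_option autoImplicit false

namespace Pool.Agent.Results.MP_6e2fc3_nt.OddWeightsRankFormula

open Pool.Agent.Results.MP_787500_nt.AllWeightsMultiquadraticX49
open Pool.Agent.Results.MP_6e2fc3_nt.CMFormsAllWeights
open NumberField IsDedekindDomain WeierstrassCurve Filter Topology
open scoped Classical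

/-! ### The `L`-functions -/

/-- `α ^ n + β ^ n`, where `α + β = a` and `α β = e`. -/
def powerSum (a e : ℤ) : ℕ → ℤ
  | 0 => 2
  | 1 => a
  | n + 2 => a * powerSum a e (n + 1) - e * powerSum a e n

/-- The local polynomial `1 - a T + e T² = (1 - α T) (1 - β T)` of the curve `W` over the number field
`F` at the place `v`: at the places of good reduction `e` is the norm `q` of `v` and
`a = q + 1 - #W(k_v)`, and the polynomial is `1` at the places of additive reduction. -/
noncomputable def localPoly {F : Type} [Field F] [NumberField F] (W : WeierstrassCurve F)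
    (v : HeightOneSpectrum (𝓞 F)) : Polynomial ℤ :=
  (W.baseChange (v.adicCompletion F)).localPolynomial (v.adicCompletionIntegers F)

/-- The Euler factor `1 / ((1 - α ^ n q^{-s}) (1 - β ^ n q^{-s}))`, where `(1 - α T) (1 - β T)` is the
local polynomial of the curve `W` at the place `v` of norm `q`. -/
noncomputable def factor {F : Type} [Field F] [NumberField F] (W : WeierstrassCurve F) (n : ℕ) (s : ℂ)
    (v : HeightOneSpectrum (𝓞 F)) : ℂ :=
  (1 - (powerSum (-(localPoly W v).coeff 1) ((localPoly W v).coeff 2) n : ℂ) *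
      (Ideal.absNorm v.asIdeal : ℂ) ^ (-s) +
    ((localPoly W v).coeff 2 : ℂ) ^ n * ((Ideal.absNorm v.asIdeal : ℂ) ^ (-s)) ^ 2)⁻¹

/-- `Λ` is the entire continuation of the `L`-function over `F` of the newform of weight `2k` that belongs
to the curve `W` with complex multiplication: the Euler product over the places of `F` with the factors
`factor W (2k-1) s` converges to `Λ(s)` for `Re s > k + 1/2`. The centre is `s = k`. -/
def IsLFunction {F : Type} [Field F] [NumberField F] (W : WeierstrassCurve F) (k : ℕ)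
    (Λ : ℂ → ℂ) : Prop :=
  Differentiable ℂ Λ ∧
    ∀ s : ℂ, (k : ℝ) + 1 / 2 < s.re → HasProd (factor W (2 * k - 1) s) (Λ s)

/-- The field `F = ℚ(s_1, …, s_n)`. -/
noncomputable abbrev Fld {n : ℕ} (s : Fin n → QBar) : IntermediateField ℚ QBar :=
  IntermediateField.adjoin ℚ (Set.range s)

instance numField {n : ℕ} (s : Fin n → QBar) : NumberField (Fld s) := Run7.h359.FE.nf_adj s

/-- The curve `E_M` over `F = ℚ(s_1, …, s_n)`. -/
noncomputable def EF {n : ℕ} (s : Fin n → QBar) (M : ℕ) : WeierstrassCurve (Fld s) :=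
  (E M).map (algebraMap ℚ (Fld s))

/-! ### The class -/

/-- The class: `D = 1 mod 8` is squarefree, and all its prime factors are `1 mod 4`. -/
def Wide (D : ℕ) : Prop := Squarefree D ∧ D % 8 = 1 ∧ ∀ p : ℕ, p.Prime → p ∣ D → p % 4 = 1

/-- The good pairs: all the numbers `M ∏_{i ∈ T} d_i` are, up to nonzero squares, numbers `D` of the
class such that `E_D(ℚ)` is finite and `Ш(E_D/ℚ)` has no element of order two. -/
def GoodPair (M : ℕ) {n : ℕ} (d : Fin n → ℕ) : Prop := ∀ T : Finset (Fin n), ∃ D k : ℕ,
  k ≠ 0 ∧ Wide D ∧ RankZeroShaTwo D ∧ M * ∏ i ∈ T, d i = D * k ^ 2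

/-- For large `X` at least `a X / √(log X)` of the `D ≤ X` of the class have the property `P`,
with a constant `a > 0`. -/
def OfOrder (P : ℕ → Prop) : Prop := ∃ (a : ℝ) (X₀ : ℕ), 0 < a ∧ ∀ X : ℕ, X₀ ≤ X →
  a * X / Real.sqrt (Real.log X) ≤ (((Finset.Icc 1 X).filter fun D => Wide D ∧ P D).card : ℝ)

/-! ### The formula -/

/-- The formula of Bloch and Kato for the form `g` of parallel weight `2k` over `F = ℚ(s_1, …, s_n)` and
`λ = 2`, both sides being zero: the `L`-function over `F` has an entire continuation `Λ` that is not zero at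
the centre `k`, and `H¹_f(F, V)` is zero for the representation `V` induced from the character
`κ^k κ'^(1-k)`. -/
def RankFormula (M : ℕ) {w : QBar} {n : ℕ} (s : Fin n → QBar) (κ κ' : Chr w) (k : ℕ) : Prop :=
  (∃ Λ : ℂ → ℂ, IsLFunction (EF s M) k Λ ∧ Λ k ≠ 0) ∧ ∀ c₀ : GQ, c₀ w = 1 - w → Zero s (chi κ κ' k) c₀

/-- For **all** odd `k > 0` the formula holds for `λ = 2` and the form of weight `2k` over
`F = ℚ(√d_1, …, √d_n)`: the curve `E_M` is over `K = ℚ(w)` isomorphic to the elliptic curve
`ED w (tw M)`, the absolute Galois group of `K` acts on its `2`-adic Tate module by `κ`, `κ'`, and the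
formula holds for the `L`-functions and the representations made from these. -/
def AllOddWeights (M : ℕ) {n : ℕ} (d : Fin n → ℕ) : Prop := ∀ w : QBar, w ^ 2 = w - 2 →
  Iso (EK w M) (ED w (tw M)) ∧ (ED w (tw M)).IsElliptic ∧
  ∃ κ κ' : Chr w, TateModule (tw M) κ κ' ∧
    ∀ s : Fin n → QBar, (∀ i, s i ^ 2 = (d i : QBar)) → ∀ k : ℕ, Odd k → RankFormula M s κ κ' k

section proof

open Pool.Agent.W189.NF Pool.Agent.H921R2.TatePole

lemma powerSum_pw (a e : ℤ) : ∀ n : ℕ, ((powerSum a e n : ℤ) : ℂ) = W165.CE.pw (a : ℂ) (e : ℂ) n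
  | 0 => by simp [powerSum, W165.CE.pw]
  | 1 => by simp [powerSum, W165.CE.pw]
  | n + 2 => by
    rw [powerSum, W165.CE.pw, ← powerSum_pw a e (n + 1), ← powerSum_pw a e n]
    push_cast
    ring

lemma coeffs {F : Type} [Field F] [NumberField F] (W : WeierstrassCurve F)
    (v : HeightOneSpectrum (𝓞 F)) :
    (localPoly W v).coeff 1 = -aV W v ∧ (localPoly W v).coeff 2 = eV W v := by
  unfold localPoly aV eV
  rw [localPolynomial_eq]
  constructor
  · rw [Polynomial.coeff_add, Polynomial.coeff_sub, Polynomial.coeff_C_mul, Polynomial.coeff_C_mul,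
      Polynomial.coeff_X, Polynomial.coeff_X_pow, Polynomial.coeff_one]
    norm_num
  · rw [Polynomial.coeff_add, Polynomial.coeff_sub, Polynomial.coeff_C_mul, Polynomial.coeff_C_mul,
      Polynomial.coeff_X, Polynomial.coeff_X_pow, Polynomial.coeff_one]
    norm_num

lemma factor_eq {F : Type} [Field F] [NumberField F] (W : WeierstrassCurve F) (n : ℕ) (s : ℂ) :
    factor W n s = Run7.h359.FE.facF W n s := by
  funext v
  unfold factor Run7.h359.FE.facF
  rw [(coeffs W v).1, (coeffs W v).2, neg_neg, powerSum_pw]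
  rfl

/-- the central values -/
theorem lfun {M n : ℕ} {d : Fin n → ℕ} (hG : GoodPair M d) {s : Fin n → QBar}
    (hs : ∀ i, s i ^ 2 = (d i : QBar)) {k : ℕ} (hk : Odd k) :
    ∃ Λ : ℂ → ℂ, IsLFunction (EF s M) k Λ ∧ Λ k ≠ 0 := by
  obtain ⟨Λ, g1, g2, g3⟩ := Run7.h359.FW.lfieldW (F := Fld s) hG
    (s := fun i => ⟨s i, IntermediateField.subset_adjoin ℚ _ ⟨i, rfl⟩⟩) (fun i => by
      apply Subtype.ext
      push_cast
      exact hs i) (Run7.h359.FE.gen_adj s) hk
  refine ⟨Λ, ⟨g1, fun z hz => ?_⟩, g3⟩
  rw [factor_eq]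
  unfold EF
  rw [Run7.h359.FE.E_cur]
  exact g2 z hz

theorem all_formulas {M n : ℕ} {d : Fin n → ℕ} (hG : GoodPair M d) : AllOddWeights M d := by
  intro w hw
  obtain ⟨h1, h2, κ, κ', h3, h4⟩ := Run7.h359.WD.all_ofW hG hw
  refine ⟨h1, h2, κ, κ', h3, fun s hs k hk => ?_⟩
  obtain ⟨h5, -⟩ := h4 s hs
  have hkp : (0 : ℤ) < (k : ℤ) := by exact_mod_cast hk.pos
  have hko : Odd (k : ℤ) := by exact_mod_cast hk
  exact ⟨lfun hG hs hk, fun c₀ hc₀ => zero_of hw hc₀ hs (h5 k hkp hko).1⟩

theorem wide_of_adm {D : ℕ} (h : Adm D) : Wide D :=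
  ⟨h.1, h.2.1, fun p hp hd => by rcases h.2.2 p hp hd with h | h <;> omega⟩

theorem good_of_good {M n : ℕ} {d : Fin n → ℕ} (h : Good M d) : GoodPair M d := by
  intro T
  obtain ⟨D, k, hk, hD, hR, he⟩ := h T
  exact ⟨D, k, hk, wide_of_adm hD, hR, he⟩

theorem ofOrder_of {P : ℕ → Prop} {a : ℝ} {X₀ : ℕ} (ha : 0 < a) {G : ℕ → Finset ℕ}
    (h : ∀ X : ℕ, X₀ ≤ X → a * X / Real.sqrt (Real.log X) ≤ ((G X).card : ℝ))
    (hG : ∀ X D, D ∈ G X → D ∈ Finset.Icc 1 X ∧ Wide D ∧ P D) : OfOrder P := by
  refine ⟨a, X₀, ha, fun X hX => (h X hX).trans (Nat.cast_le.2 (Finset.card_le_card fun D hD => ?_))⟩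
  rw [Finset.mem_filter]
  exact hG X D hD

theorem ofOrder_mono {P Q : ℕ → Prop} (h : ∀ D, P D → Q D) (hP : OfOrder P) : OfOrder Q := by
  obtain ⟨a, X₀, ha, h1⟩ := hP
  refine ⟨a, X₀, ha, fun X hX => (h1 X hX).trans ?_⟩
  refine Nat.cast_le.2 (Finset.card_le_card fun D hD => ?_)
  rw [Finset.mem_filter] at hD ⊢
  exact ⟨hD.1, hD.2.1, h D hD.2.2⟩

end proof

/-- **The rank formula of Bloch and Kato for the Hilbert modular forms of all the odd weights.** -/
theorem result :
    (∀ (n M : ℕ) (d : Fin n → ℕ), GoodPair M d → AllOddWeights M d) ∧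
    (∀ (n M : ℕ) (d : Fin n → ℕ), Wide M → (∀ i, Wide (d i)) →
      OfOrder fun D => GoodPair (M * D) d ∧ AllOddWeights (M * D) d) ∧
    (∀ (n M : ℕ) (d : Fin n → ℕ), Wide M → (∀ i, Wide (d i)) → Ind d → GoodPair M d →
      OfOrder fun D => Ind (add d D) ∧ GoodPair M (add d D) ∧ AllOddWeights M (add d D)) ∧
    (∀ (n M : ℕ) (d : Fin n → ℕ), InClass M d →
      AtLeast (c ^ 2 ^ n) fun D => GoodPair (M * D) d ∧ AllOddWeights (M * D) d) ∧
    0.4194 < c ∧ c < 0.4195 := by
  obtain ⟨-, -, -, h4, h5⟩ := Pool.Agent.Results.MP_787500_nt.AllWeightsMultiquadraticX49.result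
  refine ⟨fun n M d h => all_formulas h, fun n M d hM hd => ?_, fun n M d hM hd hI hG => ?_,
    fun n M d h => ?_, h4, h5⟩
  · exact ofOrder_mono (P := fun D => GoodPair (M * D) d) (fun D h => ⟨h, all_formulas h⟩)
      (Run7.h359.CW.cnt_good hM hd)
  · obtain ⟨a, X₀, ha, h⟩ := Run7.h359.CW.cnt_add hM hd hI hG
    refine ofOrder_of ha h fun X D hD => ?_
    rw [Finset.mem_filter] at hD
    exact ⟨hD.1, hD.2.1, hD.2.2.1, hD.2.2.2, all_formulas hD.2.2.2⟩
  · obtain ⟨hM, hd, hI⟩ := h
    refine atLeast_mono (P := fun D => Good (M * D) d)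
      (fun D hD => ⟨good_of_good hD, all_formulas (good_of_good hD)⟩) ?_
    intro x hx
    exact Pool.Agent.Results.MP_d4aa36_nt.InfiniteTowersCMForms.prop_good hM hd hI hx

end Pool.Agent.Results.MP_6e2fc3_nt.OddWeightsRankFormula
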